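import Pool.Agent.QSX.StmtsE

/-! # QSX, row DST (helper9): the distance and the order of positive definite matrices. -/

set_option autoImplicit false

namespace Pool.Agent.QSX.H9

open Matrix Finset Pool.Agent.QSX

variable {m : ℕ}

theorem nrm_transpose (A : Matrix (Fin m) (Fin m) ℝ) : nrm Aᵀ = nrm A := by
  unfold nrm
  have h : Aᵀ = star A := by
    rw [Matrix.star_eq_conjTranspose, Matrix.conjTranspose_eq_transpose_of_trivial]
  rw [h, map_star, ContinuousLinearMap.star_eq_adjoint]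
  exact LinearIsometryEquiv.norm_map ContinuousLinearMap.adjoint _

theorem norm_sq_toLp (x : Fin m → ℝ) : ‖(WithLp.toLp 2 x : EuclideanSpace ℝ (Fin m))‖ ^ 2 =
    x ⬝ᵥ x := by
  rw [EuclideanSpace.real_norm_sq_eq]
  simp only [dotProduct, sq]

theorem nrm_le_iff (A : Matrix (Fin m) (Fin m) ℝ) (C : ℝ) (hC : 0 ≤ C) :
    nrm A ≤ C ↔ ∀ x : Fin m → ℝ, (A *ᵥ x) ⬝ᵥ (A *ᵥ x) ≤ C ^ 2 * (x ⬝ᵥ x) := by
  unfold nrm
  rw [ContinuousLinearMap.opNorm_le_iff hC]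
  constructor
  · intro h x
    have h1 := h (WithLp.toLp 2 x)
    rw [Matrix.toEuclideanCLM_toLp] at h1
    have h2 := pow_le_pow_left₀ (norm_nonneg _) h1 2
    rw [mul_pow, norm_sq_toLp, norm_sq_toLp] at h2
    exact h2
  · intro h x
    have h1 := h x.ofLp
    have h2 : Matrix.toEuclideanCLM (n := Fin m) (𝕜 := ℝ) A x =
        WithLp.toLp 2 (A *ᵥ x.ofLp) := Matrix.toEuclideanCLM_toLp A x.ofLp
    have h3 : ‖x‖ ^ 2 = x.ofLp ⬝ᵥ x.ofLp := norm_sq_toLp x.ofLp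
    rw [← norm_sq_toLp, ← h3, ← h2, ← mul_pow] at h1
    exact le_of_sq_le_sq h1 (mul_nonneg hC (norm_nonneg _))

theorem psd_one_sub (g : Matrix (Fin m) (Fin m) ℝ) (r : ℝ) :
    (Real.exp r • (1 : Matrix (Fin m) (Fin m) ℝ) - g * gᵀ).PosSemidef ↔
      nrm g ≤ Real.exp (r / 2) := by
  rw [← nrm_transpose, nrm_le_iff _ _ (Real.exp_pos _).le, ← Real.exp_nat_mul]
  have hr : ((2 : ℕ) : ℝ) * (r / 2) = r := by push_cast; ring
  rw [hr, Matrix.posSemidef_iff_dotProduct_mulVec]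
  have key : ∀ x : Fin m → ℝ, star x ⬝ᵥ (Real.exp r • (1 : Matrix (Fin m) (Fin m) ℝ) - g * gᵀ) *ᵥ x =
      Real.exp r * (x ⬝ᵥ x) - (gᵀ *ᵥ x) ⬝ᵥ (gᵀ *ᵥ x) := by
    intro x
    rw [star_trivial, Matrix.sub_mulVec, dotProduct_sub, Matrix.smul_mulVec, Matrix.one_mulVec,
      dotProduct_smul, smul_eq_mul, ← Matrix.mulVec_mulVec, Matrix.dotProduct_mulVec,
      ← Matrix.mulVec_transpose]
  constructor
  · rintro ⟨-, h⟩ x
    have h1 := h x
    rw [key] at h1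
    linarith
  · intro h
    refine ⟨?_, fun x => ?_⟩
    · rw [Matrix.IsHermitian, Matrix.conjTranspose_eq_transpose_of_trivial]
      simp [Matrix.transpose_sub, Matrix.transpose_smul, Matrix.transpose_mul]
    · rw [key]
      linarith [h x]

theorem psd_iff (s t : (Matrix (Fin m) (Fin m) ℝ)ˣ) (r : ℝ) :
    (Real.exp r • ((s : Matrix (Fin m) (Fin m) ℝ) * (s : Matrix (Fin m) (Fin m) ℝ)ᵀ) -
        (t : Matrix (Fin m) (Fin m) ℝ) * (t : Matrix (Fin m) (Fin m) ℝ)ᵀ).PosSemidef ↔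
      nrm ((s⁻¹ * t : (Matrix (Fin m) (Fin m) ℝ)ˣ) : Matrix (Fin m) (Fin m) ℝ) ≤
        Real.exp (r / 2) := by
  rw [← psd_one_sub]
  obtain ⟨g, hg⟩ : ∃ g : (Matrix (Fin m) (Fin m) ℝ)ˣ, g = s⁻¹ * t := ⟨_, rfl⟩
  have ht : t = s * g := by rw [hg, mul_inv_cancel_left]
  rw [← hg, ht]
  have h1 : (Real.exp r • ((s : Matrix (Fin m) (Fin m) ℝ) * (s : Matrix (Fin m) (Fin m) ℝ)ᵀ) -
        ((s * g : (Matrix (Fin m) (Fin m) ℝ)ˣ) : Matrix (Fin m) (Fin m) ℝ) *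
          ((s * g : (Matrix (Fin m) (Fin m) ℝ)ˣ) : Matrix (Fin m) (Fin m) ℝ)ᵀ) =
      (s : Matrix (Fin m) (Fin m) ℝ) * (Real.exp r • (1 : Matrix (Fin m) (Fin m) ℝ) -
        (g : Matrix (Fin m) (Fin m) ℝ) * (g : Matrix (Fin m) (Fin m) ℝ)ᵀ) *
        star (s : Matrix (Fin m) (Fin m) ℝ) := by
    rw [Matrix.star_eq_conjTranspose, Matrix.conjTranspose_eq_transpose_of_trivial, Units.val_mul,
      Matrix.transpose_mul, Matrix.mul_sub, Matrix.sub_mul, Matrix.mul_smul, Matrix.mul_one,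
      Matrix.smul_mul]
    simp only [Matrix.mul_assoc]
  rw [h1]
  exact Matrix.IsUnit.posSemidef_star_right_conjugate_iff s.isUnit

theorem nrm_pos (hm : 0 < m) (g : (Matrix (Fin m) (Fin m) ℝ)ˣ) :
    0 < nrm (g : Matrix (Fin m) (Fin m) ℝ) := by
  unfold nrm
  rw [norm_pos_iff]
  intro h
  have h1 : (g : Matrix (Fin m) (Fin m) ℝ) = 0 := by
    have h2 := (Matrix.toEuclideanCLM (n := Fin m) (𝕜 := ℝ)).injective
    exact h2 (h.trans (map_zero _).symm)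
  haveI : Nonempty (Fin m) := ⟨⟨0, hm⟩⟩
  exact g.ne_zero h1

/-- DST -/
theorem dst : DstStmt := by
  intro m hm s t r
  have h1 : ((t : Matrix (Fin m) (Fin m) ℝ) * (t : Matrix (Fin m) (Fin m) ℝ)ᵀ -
        Real.exp (-r) • ((s : Matrix (Fin m) (Fin m) ℝ) *
          (s : Matrix (Fin m) (Fin m) ℝ)ᵀ)).PosSemidef ↔
      nrm ((t⁻¹ * s : (Matrix (Fin m) (Fin m) ℝ)ˣ) : Matrix (Fin m) (Fin m) ℝ) ≤
        Real.exp (r / 2) := by
    rw [← psd_iff]
    constructor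
    · intro h
      have h2 := h.smul (Real.exp_pos r).le
      rw [smul_sub, smul_smul, ← Real.exp_add, add_neg_cancel, Real.exp_zero, one_smul] at h2
      exact h2
    · intro h
      have h2 := h.smul (Real.exp_pos (-r)).le
      rw [smul_sub, smul_smul, ← Real.exp_add, neg_add_cancel, Real.exp_zero, one_smul] at h2
      exact h2
  rw [h1, psd_iff]
  have hinv : t⁻¹ * s = (s⁻¹ * t)⁻¹ := by rw [_root_.mul_inv_rev, inv_inv]
  have hlen : 2 * len (s⁻¹ * t) ≤ r ↔ len (s⁻¹ * t) ≤ r / 2 := by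
    constructor <;> intro h <;> linarith
  rw [hlen, len, Real.log_le_iff_le_exp (lt_max_of_lt_left (nrm_pos hm _)), max_le_iff, hinv,
    and_comm]

end Pool.Agent.QSX.H9
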